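import Pool.Agent.Q8.CM.Main

namespace Pool.Agent.Results.MP_41152b_al.NoCollapse

open Q8.CM

lemma toral : IsToral gl11 := by
  refine ⟨2, 2, (LinearEquiv.finTwoArrow ℂ ℂ).symm, Module.Basis.finTwoProd ℂ,
    ![![1, -1], ![-1, 1]], fun _ _ => rfl, ?_⟩
  intro x i
  fin_cases i
  · show ((x.1 - x.2) * _, (x.2 - x.1) * _) = _
    ext
    all_goals simp [Fin.sum_univ_two]
    all_goals ring
  · show ((x.1 - x.2) * _, (x.2 - x.1) * _) = _
    ext
    all_goals simp [Fin.sum_univ_two]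
    all_goals ring

/-- For `g = gl(1|1)` and `a` the line spanned by `E₁₁ - E₂₂` the relative cohomology
`H^•(g,a;ℂ)` is `ℂ` (hence Cohen–Macaulay), but the spectral sequence of `a ≤ g_0 ≤ g` does not
collapse at `E_2`. -/
theorem result :
    IsLieSuperalgebra gl11 ∧ IsToral gl11 ∧ (∀ x ∈ aa, ∀ y ∈ aa, gl11.b00 x y ∈ aa) ∧
    (∀ n φ, IsCochain gl11 aa n φ →
      IsCochain gl11 aa (n + 1) (d gl11 φ) ∧ ∀ xs ys, d gl11 (d gl11 φ) xs ys = 0) ∧
    CohomologyIsLine gl11 aa 0 ∧ (∀ n, 1 ≤ n → CohomologyVanishes gl11 aa n) ∧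
    ¬ CollapsesAtE2 gl11 aa :=
  ⟨gl11_super, toral, fun _ _ _ _ => aa.zero_mem, d_cochain, H_zero, H_pos, not_collapse⟩

end Pool.Agent.Results.MP_41152b_al.NoCollapse
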